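import Pool.Agent.N928.FG.Stm

/-!
# FG/QB: bounds for the return probabilities on `ℤ` (helper933)
-/

set_option autoImplicit false

namespace Pool.Agent.N933.FG

open Pool.Agent.N928.FG MeasureTheory

/-- the integrand is between `0` and `1` -/
theorem base_nonneg {β : ℝ} (hβ : 0 < β) (hβ2 : β ≤ 1 / 2) (x : ℝ) :
    0 ≤ 1 - β + β * Real.cos x := by
  have := Real.neg_one_le_cos x
  nlinarith

theorem cont_base (β : ℝ) (n : ℕ) :
    Continuous (fun x : ℝ => (1 - β + β * Real.cos (2 * Real.pi * x)) ^ n) := by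
  fun_prop

/-- upper bound on the first half of the interval -/
theorem base_le {b β : ℝ} (hb : 0 < b) (hbβ : b ≤ β) {x : ℝ} (hx0 : 0 ≤ x) (hx1 : x ≤ 1 / 2) :
    1 - β + β * Real.cos (2 * Real.pi * x) ≤ Real.exp (-(8 * b) * x ^ 2) := by
  have hpi := Real.pi_pos
  have h1 : 2 * x ≤ Real.sin (Real.pi * x) := by
    have := Real.mul_le_sin (x := Real.pi * x) (by positivity) (by nlinarith)
    have e : 2 / Real.pi * (Real.pi * x) = 2 * x := by field_simp
    rwa [e] at this
  have h2 : Real.cos (2 * Real.pi * x) = 1 - 2 * Real.sin (Real.pi * x) ^ 2 := by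
    have : 2 * Real.pi * x = 2 * (Real.pi * x) := by ring
    rw [this, Real.cos_two_mul, Real.sin_sq]
    ring
  have h3 : (2 * x) ^ 2 ≤ Real.sin (Real.pi * x) ^ 2 := by gcongr
  have h4 := Real.add_one_le_exp (-(8 * b) * x ^ 2)
  have hβ0 : 0 ≤ β := hb.le.trans hbβ
  have h5 : b * (2 * x) ^ 2 ≤ β * Real.sin (Real.pi * x) ^ 2 := by gcongr
  rw [h2]
  nlinarith

theorem pow_le {b β : ℝ} (hb : 0 < b) (hbβ : b ≤ β) (hβ2 : β ≤ 1 / 2) (n : ℕ) {x : ℝ}
    (hx0 : 0 ≤ x) (hx1 : x ≤ 1) : (1 - β + β * Real.cos (2 * Real.pi * x)) ^ n ≤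
      Real.exp (-(8 * b * n) * x ^ 2) + Real.exp (-(8 * b * n) * (1 - x) ^ 2) := by
  have hβ : 0 < β := hb.trans_le hbβ
  rcases le_total x (1 / 2) with h | h
  · have h1 := pow_le_pow_left₀ (base_nonneg hβ hβ2 (2 * Real.pi * x)) (base_le hb hbβ hx0 h) n
    rw [← Real.exp_nat_mul] at h1
    have e : (n : ℝ) * (-(8 * b) * x ^ 2) = -(8 * b * n) * x ^ 2 := by ring
    rw [e] at h1
    have := Real.exp_pos (-(8 * b * n) * (1 - x) ^ 2)
    linarith
  · have h0 : Real.cos (2 * Real.pi * x) = Real.cos (2 * Real.pi * (1 - x)) := by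
      have : 2 * Real.pi * (1 - x) = 2 * Real.pi - 2 * Real.pi * x := by ring
      rw [this, Real.cos_two_pi_sub]
    rw [h0]
    have h1 := pow_le_pow_left₀ (base_nonneg hβ hβ2 (2 * Real.pi * (1 - x)))
      (base_le hb hbβ (x := 1 - x) (by linarith) (by linarith)) n
    rw [← Real.exp_nat_mul] at h1
    have e : (n : ℝ) * (-(8 * b) * (1 - x) ^ 2) = -(8 * b * n) * (1 - x) ^ 2 := by ring
    rw [e] at h1
    have := Real.exp_pos (-(8 * b * n) * x ^ 2)
    linarith

theorem t_QB (hI : S_INT) (_ : S_S1) : S_QB := by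
  constructor
  · intro β hβ hβ2
    refine ⟨9 / 100, by norm_num, fun n hn => ?_⟩
    rw [hI β hβ hβ2 n]
    have hn1 : (1 : ℝ) ≤ n := by exact_mod_cast hn
    have hsn : 1 ≤ Real.sqrt n := by
      rw [show (1 : ℝ) = Real.sqrt 1 by simp]
      exact Real.sqrt_le_sqrt hn1
    have hs0 : 0 < Real.sqrt n := by linarith
    set h : ℝ := 1 / (10 * Real.sqrt n) with hh
    have hh0 : 0 < h := by positivity
    have hh1 : h ≤ 1 := by
      rw [hh, div_le_one (by positivity)]
      linarith
    have hhsq : h ^ 2 = 1 / (100 * n) := by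
      rw [hh, div_pow, mul_pow, Real.sq_sqrt (by linarith)]
      norm_num
    have h1 : ∫ x in (0:ℝ)..h, (9 / 10 : ℝ) ≤
        ∫ x in (0:ℝ)..h, (1 - β + β * Real.cos (2 * Real.pi * x)) ^ n := by
      apply intervalIntegral.integral_mono_on hh0.le (by simp) ((cont_base β n).intervalIntegrable _ _)
      intro x hx
      have hx2 : x ^ 2 ≤ 1 / (100 * n) := by
        rw [← hhsq]
        exact pow_le_pow_left₀ hx.1 hx.2 2
      have hc := Real.one_sub_sq_div_two_le_cos (x := 2 * Real.pi * x)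
      have hpi : Real.pi ^ 2 ≤ 10 := by
        have h3 := Real.pi_lt_d2
        have h4 := Real.pi_pos
        nlinarith
      have hx10 : 1 - 1 / (10 * (n : ℝ)) ≤ 1 - β + β * Real.cos (2 * Real.pi * x) := by
        have h5 : β * (2 * Real.pi * x) ^ 2 / 2 ≤ 1 / (10 * (n : ℝ)) := by
          have h6 : (2 * Real.pi * x) ^ 2 ≤ 40 * (1 / (100 * (n : ℝ))) := by
            calc (2 * Real.pi * x) ^ 2 = 4 * (Real.pi ^ 2 * x ^ 2) := by ring
              _ ≤ 4 * (10 * (1 / (100 * (n : ℝ)))) := by gcongr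
              _ = _ := by ring
          have h7 : β * (2 * Real.pi * x) ^ 2 ≤ 1 / 2 * (40 * (1 / (100 * (n : ℝ)))) := by
            gcongr
          have h8 : 1 / 2 * (40 * (1 / (100 * (n : ℝ)))) / 2 = 1 / (10 * (n : ℝ)) := by
            field_simp
            norm_num
          linarith
        nlinarith
      have h9 : (9 / 10 : ℝ) ≤ (1 - 1 / (10 * (n : ℝ))) ^ n := by
        have hb1 : 1 / (10 * (n : ℝ)) ≤ 1 / 10 := by
          apply one_div_le_one_div_of_le (by norm_num)
          linarith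
        have h10 := one_add_mul_le_pow (a := -(1 / (10 * (n : ℝ)))) (by linarith) n
        have h11 : 1 + (n : ℝ) * -(1 / (10 * (n : ℝ))) = 9 / 10 := by
          field_simp
          norm_num
        rw [h11] at h10
        calc (9 / 10 : ℝ) ≤ (1 + -(1 / (10 * (n : ℝ)))) ^ n := h10
          _ = _ := by ring_nf
      have hbn : 1 / (10 * (n : ℝ)) ≤ 1 := by
        rw [div_le_one (by positivity)]
        linarith
      exact h9.trans (pow_le_pow_left₀ (by linarith) hx10 n)
    have h2 : ∫ x in (0:ℝ)..h, (1 - β + β * Real.cos (2 * Real.pi * x)) ^ n ≤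
        ∫ x in (0:ℝ)..1, (1 - β + β * Real.cos (2 * Real.pi * x)) ^ n := by
      apply intervalIntegral.integral_mono_interval le_rfl hh0.le hh1
      · exact Filter.Eventually.of_forall fun x => pow_nonneg (base_nonneg hβ hβ2 _) n
      · exact (cont_base β n).intervalIntegrable _ _
    have h3 : ∫ x in (0:ℝ)..h, (9 / 10 : ℝ) = 9 / 100 / Real.sqrt n := by
      rw [intervalIntegral.integral_const, smul_eq_mul, hh]
      field_simp
      norm_num
    linarith
  · intro b hb
    refine ⟨2 * Real.sqrt (Real.pi / (8 * b)), by positivity, fun β hbβ hβ2 n hn => ?_⟩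
    have hβ : 0 < β := hb.trans_le hbβ
    rw [hI β hβ hβ2 n]
    have hn1 : (1 : ℝ) ≤ n := by exact_mod_cast hn
    have ha : 0 < 8 * b * n := by positivity
    have hc1 : Continuous (fun x : ℝ => Real.exp (-(8 * b * n) * x ^ 2)) := by fun_prop
    have hc2 : Continuous (fun x : ℝ => Real.exp (-(8 * b * n) * (1 - x) ^ 2)) := by fun_prop
    have h1 : ∫ x in (0:ℝ)..1, (1 - β + β * Real.cos (2 * Real.pi * x)) ^ n ≤
        ∫ x in (0:ℝ)..1, (Real.exp (-(8 * b * n) * x ^ 2) +
          Real.exp (-(8 * b * n) * (1 - x) ^ 2)) := by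
      apply intervalIntegral.integral_mono_on zero_le_one
        ((cont_base β n).intervalIntegrable _ _) ((hc1.add hc2).intervalIntegrable _ _)
      intro x hx
      exact pow_le hb hbβ hβ2 n hx.1 hx.2
    have h2 : ∫ x in (0:ℝ)..1, Real.exp (-(8 * b * n) * (1 - x) ^ 2) =
        ∫ x in (0:ℝ)..1, Real.exp (-(8 * b * n) * x ^ 2) := by
      rw [intervalIntegral.integral_comp_sub_left
        (fun x : ℝ => Real.exp (-(8 * b * n) * x ^ 2)) 1]
      norm_num
    have h3 : ∫ x in (0:ℝ)..1, Real.exp (-(8 * b * n) * x ^ 2) ≤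
        Real.sqrt (Real.pi / (8 * b * n)) := by
      rw [← integral_gaussian, intervalIntegral.integral_of_le zero_le_one]
      exact setIntegral_le_integral (integrable_exp_neg_mul_sq ha)
        (Filter.Eventually.of_forall fun x => (Real.exp_pos _).le)
    rw [intervalIntegral.integral_add (hc1.intervalIntegrable _ _) (hc2.intervalIntegrable _ _),
      h2] at h1
    have h4 : Real.sqrt (Real.pi / (8 * b * n)) = Real.sqrt (Real.pi / (8 * b)) / Real.sqrt n := by
      rw [← Real.sqrt_div (by positivity)]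
      congr 1
      field_simp
    rw [h4] at h3
    calc _ ≤ Real.sqrt (Real.pi / (8 * b)) / Real.sqrt n + Real.sqrt (Real.pi / (8 * b)) / Real.sqrt n := by
            linarith
      _ = _ := by ring

end Pool.Agent.N933.FG
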